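import Pool.Agent.H87.SM.Final
import Pool.Agent.H87.SM.GEO
import Pool.Agent.H87.SM.UP
import Pool.Agent.H87.SM.SEP
import Pool.Agent.H87.SM.PER
import Pool.Agent.H87.SM.RND
import Pool.Agent.H87.SM.APX
import Pool.Agent.H87.SM.CPOW
import Pool.Agent.H87.SM.CPRA
import Pool.Agent.H87.SM.CPRB
import Pool.Agent.H87.SM.CPRC
import Pool.Agent.H87.SM.CBIT
import Pool.Agent.H87.SM.CMAX
import Pool.Agent.H87.SM.CDIS
import Pool.Agent.H87.SM.CEN
import Pool.Agent.H87.SM.CDIG
import Pool.Agent.H87.SM.CENP
import Pool.Agent.H87.SM.CCR
import Pool.Agent.H87.SM.COPT

/-!
# Logarithmic energy: near-minimisers from a real number program with one computable constant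

The definitions are in `Pool.Agent.H87.SM.Defs` and `Pool.Agent.H87.SM.CDefs`:
* `Prg`: programs with assignments and outputs of expressions built from registers and real constants by `+ - * /`,
  composition, case distinction `0 < e` and loops; the registers are fixed in the program (no indirect addressing);
* `Run P s s' t`: started in the state `s` (contents of the registers, list of the numbers written) the program `P`
  stops after `t` steps in the state `s'`; every operation, comparison, read of a register or constant, assignment and
  output costs one step;
* `start N`: register `0` holds `N`, the others `0`, nothing is written;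
* `P.Over S`: all real constants in `P` are in `S`; `CompReal c`: `c` is a computable real number;
* `Conf ω`: the points `ω i` are pairwise different and on the unit sphere; `energy ω`: minus the sum of
  `log ‖ω i - ω j‖` over the ordered pairs `i ≠ j`; `coords ω`: the list of the `3 N` coordinates.

The program found here contains one computable real constant in which near-minimisers for all `N` are encoded; its
digits are a primitive recursive function, but no fast way to compute them is known.
-/

set_option autoImplicit false

namespace Pool.Agent.Results.MP_b52344_lc.ComputableConstantProgram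

open Pool.Agent.H87.SM

/-- There are a computable real number `c` and a program `P` over the real numbers whose only constants are `c` and
natural numbers, such that for every input `N ≥ 2` the program stops after at most `3000 N⁵` steps (its run is unique)
and has then written the coordinates of a configuration `ω` of `N` points of the unit sphere whose energy exceeds the
minimal one by at most `1`, in particular by at most `2 log N`. The coordinates of `ω` are rational, with numerators and
denominators at most `2 ^ (40 N³)`. -/
theorem result : ∃ (c : ℝ) (P : Prg), CompReal c ∧ P.Over ({c} ∪ Set.range (fun n : ℕ => (n : ℝ))) ∧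
    ∀ N : ℕ, 2 ≤ N → ∃ (s : St) (t : ℕ) (ω : Fin N → E3),
      Run P (start N) s t ∧ (∀ s' t', Run P (start N) s' t' → s' = s ∧ t' = t) ∧ t ≤ 3000 * N ^ 5 ∧
      Conf ω ∧ s.o = coords ω ∧
      (∀ i j, ∃ p q : ℤ, 0 < q ∧ |p| ≤ 2 ^ (40 * N ^ 3) ∧ q ≤ 2 ^ (40 * N ^ 3) ∧ ω i j = p / q) ∧
      (∀ ω' : Fin N → E3, Conf ω' → energy ω ≤ energy ω' + 1) ∧
      energy ω - (⨅ ω' : {ω' : Fin N → E3 // Conf ω'}, energy ω'.1) ≤ 2 * Real.log N := by
  obtain ⟨q1, q2, q3, q4⟩ := c_pra c_pow
  obtain ⟨n1, n2⟩ := c_prb c_pow q1 q2 q3 q4
  exact Prog2.final c_pow (c_prc c_pow n1 n2) c_bit c_enp c_cr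
    (c_opt geo up sep per rnd apx c_max c_dis c_en c_dig)

end Pool.Agent.Results.MP_b52344_lc.ComputableConstantProgram
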